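import Mathlib
import Pool.Agent.MP_8fc759_al.H75.Exists

set_option autoImplicit false

universe u v

namespace Pool.Agent.Results.MP_8fc759_al.NormalGenerator

/-- The natural homomorphism `Aut F → Aut (F / [F, F])`. -/
def toAb (F : Type u) [Group F] : MulAut F →* MulAut (Abelianization F) where
  toFun α := MulEquiv.abelianizationCongr α
  map_one' := by
    ext x
    induction x using QuotientGroup.induction_on with
    | H g => rfl
  map_mul' α β := by
    ext x
    induction x using QuotientGroup.induction_on with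
    | H g => rfl

lemma mem_ker {F : Type u} [Group F] (α : MulAut F) :
    α ∈ (toAb F).ker ↔ ∀ g, Abelianization.of (α g) = Abelianization.of g := by
  rw [MonoidHom.mem_ker]
  constructor
  · intro h g
    exact MulEquiv.congr_fun h (Abelianization.of g)
  · intro h
    ext x
    induction x using QuotientGroup.induction_on with
    | H g => exact h g

open Pool.Agent.MP_8fc759_al.H75 in
lemma free (X : Type v) [Infinite X] : ∃ α : Aut X, IA α ∧ ∀ β : Aut X, IA β →
    β ∈ Subgroup.normalClosure ({α} : Set (Aut X)) := by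
  obtain ⟨α, hα, -⟩ := exists_generic_pair (1 : Aut X) IA.one
  refine ⟨α, hα.1, fun β hβ => ?_⟩
  obtain ⟨γ, h1, h2⟩ := exists_generic_pair β hβ
  obtain ⟨π, hπ⟩ := hα.conj h1
  obtain ⟨ρ, hρ⟩ := hα.conj h2
  have hm : α ∈ Subgroup.normalClosure ({α} : Set (Aut X)) := Subgroup.subset_normalClosure rfl
  have e : β = γ⁻¹ * (γ * β) := (inv_mul_cancel_left γ β).symm
  rw [e, hρ, hπ]
  exact Subgroup.mul_mem _
    (Subgroup.inv_mem _ (Subgroup.normalClosure_normal.conj_mem α hm π))
    (Subgroup.normalClosure_normal.conj_mem α hm ρ)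

lemma ab_congr {F : Type u} {G : Type v} [Group F] [Group G] (e : F ≃* G) {a b : F}
    (h : Abelianization.of a = Abelianization.of b) :
    Abelianization.of (e a) = Abelianization.of (e b) := by
  rw [← abelianizationCongr_of, ← abelianizationCongr_of, h]

theorem result (F : Type u) [Group F] (ι : Type v) [Infinite ι] (b : FreeGroupBasis ι F) :
    ∃ α ∈ (toAb F).ker, Subgroup.normalClosure ({α} : Set (MulAut F)) = (toAb F).ker := by
  obtain ⟨α, hα, hβ⟩ := free ι
  let e : F ≃* FreeGroup ι := b.repr
  let c : MulAut (FreeGroup ι) ≃* MulAut F := MulAut.congr e.symm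
  have hc : ∀ γ g, c γ g = e.symm (γ (e g)) := fun γ g => rfl
  have h1 : c α ∈ (toAb F).ker := by
    rw [mem_ker]
    intro g
    rw [hc]
    have := ab_congr e.symm (hα (e g))
    rwa [e.symm_apply_apply] at this
  refine ⟨c α, h1, le_antisymm
    (Subgroup.normalClosure_le_normal (Set.singleton_subset_iff.2 h1)) fun β hb => ?_⟩
  obtain ⟨γ, rfl⟩ := c.surjective β
  have h2 : Pool.Agent.MP_8fc759_al.H75.IA γ := by
    intro g
    have := ab_congr e ((mem_ker _).1 hb (e.symm g))
    rwa [hc, e.apply_symm_apply, e.apply_symm_apply] at this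
  have h3 := Subgroup.mem_map_of_mem c.toMonoidHom (hβ γ h2)
  rw [Subgroup.map_normalClosure _ _ c.surjective, Set.image_singleton] at h3
  exact h3

end Pool.Agent.Results.MP_8fc759_al.NormalGenerator
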